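import Pool.Agent.Run7.h567.CoreH
import Pool.Agent.Run7.h567.MainC

set_option autoImplicit false

open MeasureTheory

namespace Pool.Agent.Results.MP_eac235_an.MixedNormRange

/-- The mixed-norm estimate for the free-transport density, for all `d ≥ 2` and all
`p > (d + 2 - 1 / d) / d` (for `d = 2`: all `p > 7 / 4`, half way between the exponents `2` and
`3 / 2`). -/
theorem result :
    ∀ d : ℕ, 2 ≤ d → ∀ p : ℝ,
      ((d : ℝ) + 2 - 1 / (d : ℝ)) / (d : ℝ) < p →
      ∃ C : NNReal, ∀ f : (Fin d → ℝ) → (Fin d → ℝ) → ENNReal,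
        Measurable (Function.uncurry f) →
          (∫⁻ t : ℝ, ∫⁻ x : Fin d → ℝ,
              (∫⁻ v : Fin d → ℝ, f (x - t • v) v) ^ p) ^ (1 / p)
            ≤ (C : ENNReal) *
              (∫⁻ v : Fin d → ℝ,
                  (∫⁻ x : Fin d → ℝ, f x v ^ ((d : ℝ) * p / ((d : ℝ) + 1))) ^
                    (((d : ℝ) * p / ((d : ℝ) * p - 1)) / ((d : ℝ) * p / ((d : ℝ) + 1)))) ^
                (1 / ((d : ℝ) * p / ((d : ℝ) * p - 1))) := by
  intro d hd p hp
  have hd' : (2 : ℝ) ≤ (d : ℝ) := by exact_mod_cast hd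
  have hd0 : (0 : ℝ) < (d : ℝ) := by linarith
  -- choice of the loss
  have h1 : (d : ℝ) + 2 - 1 / (d : ℝ) < (d : ℝ) * p := by
    rw [div_lt_iff₀ hd0] at hp; linarith
  set g : ℝ := (d : ℝ) * p - ((d : ℝ) + 2 - 1 / (d : ℝ)) with hg
  have hg0 : 0 < g := by linarith
  set ε : ℝ := min (g / 2) (1 / (8 * ((d : ℝ) + 2))) with hε
  have hε0 : 0 < ε := lt_min (by linarith) (by positivity)
  have hε1 : ε ≤ 1 / (8 * ((d : ℝ) + 2)) := min_le_right _ _
  have hε2 : ε ≤ g / 2 := min_le_left _ _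
  have hε3 : ε < 1 := by
    refine lt_of_le_of_lt hε1 ?_
    rw [div_lt_one (by positivity)]; linarith
  have hcore := Run7.h567.core_half hd ε hε0 hε1
  refine Run7.h567.main_of_core (by omega) _ (div_pos (by linarith) hd0) ?_ hcore p ?_
  · rw [div_le_one hd0]; linarith
  · rw [div_lt_iff₀ hd0]
    have h2 : (1 - ε) / (d : ℝ) = 1 / (d : ℝ) - ε / (d : ℝ) := by ring
    have h3 : ε / (d : ℝ) ≤ ε := div_le_self hε0.le (by linarith)
    rw [h2]
    have h4 : (d : ℝ) * p = g + ((d : ℝ) + 2 - 1 / (d : ℝ)) := by rw [hg]; ring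
    linarith

end Pool.Agent.Results.MP_eac235_an.MixedNormRange
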